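import Pool.Agent.Helper89.OS.St1

set_option autoImplicit false

namespace Pool.Agent.Helper58.OS

open Pool.Agent.Helper89.OS

/-- Module IDP of project OS. -/
theorem hIDP : StIDP := by
  intro L p hL hp
  obtain ⟨a, L', hpL', hLe⟩ := Nat.exists_eq_pow_mul_and_not_dvd hL.ne' p hp.ne_one
  have hcop : Nat.Coprime (p ^ a) L' :=
    Nat.Coprime.pow_left a ((Nat.Prime.coprime_iff_not_dvd hp).2 hpL')
  obtain ⟨k, hk1, hk2⟩ := Nat.chineseRemainder hcop 1 0
  subst hLe
  refine ⟨a, (k : ZMod (p ^ a * L')), ⟨?_, ?_, L', rfl, hpL', ?_⟩, ?_, ?_⟩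
  · have h : k * k ≡ k [MOD p ^ a * L'] := by
      refine (Nat.modEq_and_modEq_iff_modEq_mul hcop).1 ⟨?_, ?_⟩
      · simpa using hk1.mul_right k
      · have h2 := hk2.mul_right k
        rw [zero_mul] at h2
        exact h2.trans hk2.symm
    have h3 := (ZMod.natCast_eq_natCast_iff _ _ _).2 h
    rw [← Nat.cast_mul]
    exact h3
  · rw [← Nat.cast_mul, ZMod.natCast_eq_zero_iff]
    exact Nat.mul_dvd_mul_left _ ((Nat.modEq_zero_iff_dvd).1 hk2)
  · have h : L' * k ≡ L' * 1 [MOD p ^ a * L'] := by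
      rw [mul_comm (p ^ a) L']
      exact Nat.ModEq.mul_left' L' hk1
    have h3 := (ZMod.natCast_eq_natCast_iff _ _ _).2 h
    rw [Nat.cast_mul, Nat.cast_mul, Nat.cast_one] at h3
    rw [mul_sub, h3, sub_self]
  · intro hd
    rcases Nat.eq_zero_or_pos a with h0 | h0
    · subst h0
      rw [pow_zero, one_mul] at hd
      exact absurd hd hpL'
    · exact h0
  · intro hd
    by_contra hlt
    have ha : a ≤ 1 := by omega
    rcases Nat.le_one_iff_eq_zero_or_eq_one.1 ha with h0 | h1
    · subst h0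
      rw [pow_zero, one_mul] at hd
      exact hpL' ((Dvd.intro_left _ (by rw [pow_two])).trans hd)
    · subst h1
      rw [pow_one, pow_two] at hd
      exact hpL' (Nat.dvd_of_mul_dvd_mul_left hp.pos hd)

end Pool.Agent.Helper58.OS
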